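import Pool.Agent.K4H92.ES.Prod

/-!
# The Cantor group is isomorphic to its square, with measure and topology
-/

set_option autoImplicit false

open MeasureTheory Set Topology

namespace Pool.Agent.K4H92.ES

/-- The Cantor space `2^ω`. -/
abbrev Cantor : Type := ℕ → Bool

/-- The fair coin measure on a factor. -/
noncomputable abbrev half : Measure Bool := (PMF.uniformOfFintype Bool).toMeasure

/-- The product measure on `2^ω`. -/
noncomputable def coin : Measure Cantor := Measure.infinitePi (fun _ : ℕ => half)

instance : IsProbabilityMeasure coin := by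
  unfold coin
  infer_instance

/-- The merging map `2^ω × 2^ω → 2^ω`. -/
def merge (p : Cantor × Cantor) : Cantor := fun n => if n % 2 = 0 then p.1 (n / 2) else p.2 (n / 2)

/-- The splitting map `2^ω → 2^ω × 2^ω`. -/
def split (x : Cantor) : Cantor × Cantor := (fun n => x (2 * n), fun n => x (2 * n + 1))

theorem split_merge (p : Cantor × Cantor) : split (merge p) = p := by
  apply Prod.ext
  · funext n
    simp [split, merge]
  · funext n
    have h1 : (2 * n + 1) % 2 = 1 := by omega
    have h2 : (2 * n + 1) / 2 = n := by omega
    simp [split, merge, h1, h2]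

theorem merge_split (x : Cantor) : merge (split x) = x := by
  funext n
  simp only [merge, split]
  split_ifs with h
  · congr 1; omega
  · congr 1; omega

theorem continuous_merge : Continuous merge := by
  refine continuous_pi fun n => ?_
  by_cases h : n % 2 = 0
  · simp only [merge, h, if_true]
    exact (continuous_apply _).comp continuous_fst
  · simp only [merge, h, if_false]
    exact (continuous_apply _).comp continuous_snd

theorem continuous_split : Continuous split := by
  refine Continuous.prodMk ?_ ?_
  · exact continuous_pi fun n => continuous_apply _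
  · exact continuous_pi fun n => continuous_apply _

/-- The homeomorphism. -/
def homeo : Cantor × Cantor ≃ₜ Cantor where
  toFun := merge
  invFun := split
  left_inv := split_merge
  right_inv := merge_split
  continuous_toFun := continuous_merge
  continuous_invFun := continuous_split

theorem map_merge : (coin.prod coin).map merge = coin := by
  unfold coin
  apply Measure.eq_infinitePi
  intro s t ht
  rw [Measure.map_apply continuous_merge.measurable
    (MeasurableSet.pi s.countable_toSet fun i _ => ht i)]
  let s0 : Finset ℕ := (s.filter (fun n => n % 2 = 0)).image (fun n => n / 2)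
  let s1 : Finset ℕ := (s.filter (fun n => ¬ n % 2 = 0)).image (fun n => n / 2)
  have h1 : merge ⁻¹' (Set.pi s t) =
      (Set.pi (s0 : Set ℕ) fun n => t (2 * n)) ×ˢ (Set.pi (s1 : Set ℕ) fun n => t (2 * n + 1)) := by
    ext ⟨a, b⟩
    simp only [mem_preimage, Set.mem_pi, mem_prod, Finset.mem_coe, s0, s1, Finset.mem_image,
      Finset.mem_filter, merge]
    constructor
    · intro h
      constructor
      · rintro n ⟨m, ⟨hm, hm2⟩, rfl⟩
        have := h m hm
        rw [if_pos hm2] at this
        have h2 : 2 * (m / 2) = m := by omega
        rwa [h2]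
      · rintro n ⟨m, ⟨hm, hm2⟩, rfl⟩
        have := h m hm
        rw [if_neg hm2] at this
        have h2 : 2 * (m / 2) + 1 = m := by omega
        rwa [h2]
    · rintro ⟨h2, h3⟩ m hm
      by_cases hm2 : m % 2 = 0
      · rw [if_pos hm2]
        have := h2 (m / 2) ⟨m, ⟨hm, hm2⟩, rfl⟩
        have h4 : 2 * (m / 2) = m := by omega
        rwa [h4] at this
      · rw [if_neg hm2]
        have := h3 (m / 2) ⟨m, ⟨hm, hm2⟩, rfl⟩
        have h4 : 2 * (m / 2) + 1 = m := by omega
        rwa [h4] at this
  rw [h1, Measure.prod_prod, Measure.infinitePi_pi _ (fun i _ => ht _),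
    Measure.infinitePi_pi _ (fun i _ => ht _)]
  rw [Finset.prod_image, Finset.prod_image]
  · rw [← Finset.prod_filter_mul_prod_filter_not s (fun n => n % 2 = 0)]
    congr 1
    · apply Finset.prod_congr rfl
      intro m hm
      have h4 : 2 * (m / 2) = m := by
        have := (Finset.mem_filter.1 hm).2
        omega
      rw [h4]
    · apply Finset.prod_congr rfl
      intro m hm
      have h4 : 2 * (m / 2) + 1 = m := by
        have := (Finset.mem_filter.1 hm).2
        omega
      rw [h4]
  · intro a ha b hb hab
    have h5 := (Finset.mem_filter.1 ha).2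
    have h6 := (Finset.mem_filter.1 hb).2
    simp only at hab
    omega
  · intro a ha b hb hab
    have h5 := (Finset.mem_filter.1 ha).2
    have h6 := (Finset.mem_filter.1 hb).2
    simp only at hab
    omega

instance : coin.IsOpenPosMeasure := by
  refine ⟨fun U hU hne => ?_⟩
  obtain ⟨x, hx⟩ := hne
  obtain ⟨I, u, hu, hsub⟩ := isOpen_pi_iff.1 hU x hx
  have h1 : coin (Set.pi (I : Set ℕ) u) ≠ 0 := by
    unfold coin
    rw [Measure.infinitePi_pi _ (fun i _ => MeasurableSet.of_discrete)]
    refine Finset.prod_ne_zero_iff.2 fun i hi => ?_
    have h2 : half {x i} ≤ half (u i) := measure_mono (singleton_subset_iff.2 (hu i hi).2)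
    intro h3
    rw [h3] at h2
    rw [PMF.toMeasure_apply_singleton _ _ MeasurableSet.of_discrete] at h2
    simp at h2
  exact fun h => h1 (measure_mono_null hsub h)

end Pool.Agent.K4H92.ES
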