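import Mathlib

/-!
# Null and meagre subgroups outside `ℰ` from meagre subgroups outside `ℰ`
-/

set_option autoImplicit false

open MeasureTheory Set Topology

namespace Pool.Agent.K4H92.ES

/-- `A ∈ ℰ`: the set `A` is covered by countably many closed sets of measure zero. -/
def InE {X : Type} [TopologicalSpace X] [MeasurableSpace X] (μ : Measure X) (A : Set X) : Prop :=
  ∃ C : ℕ → Set X, (∀ k, IsClosed (C k) ∧ μ (C k) = 0) ∧ A ⊆ ⋃ k, C k

theorem isOpen_lt {X Y : Type} [TopologicalSpace X] [TopologicalSpace Y] [CompactSpace Y]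
    [MeasurableSpace Y] (ν : Measure Y) [ν.OuterRegular] {C : Set (X × Y)}
    (hC : IsClosed C) (ε : ENNReal) : IsOpen {x : X | ν (Prod.mk x ⁻¹' C) < ε} := by
  rw [isOpen_iff_mem_nhds]
  intro x hx
  obtain ⟨U, hU, hUo, hUm⟩ := Set.exists_isOpen_lt_of_lt (Prod.mk x ⁻¹' C) ε hx
  have h1 : IsClosed (C ∩ Prod.snd ⁻¹' Uᶜ) :=
    hC.inter (hUo.isClosed_compl.preimage continuous_snd)
  have h2 : IsClosed (Prod.fst '' (C ∩ Prod.snd ⁻¹' Uᶜ)) := isClosedMap_fst_of_compactSpace _ h1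
  have h3 : x ∉ Prod.fst '' (C ∩ Prod.snd ⁻¹' Uᶜ) := by
    rintro ⟨⟨a, b⟩, ⟨h4, h5⟩, rfl⟩
    exact h5 (hU h4)
  filter_upwards [h2.isOpen_compl.mem_nhds h3] with x' hx'
  refine lt_of_le_of_lt (measure_mono fun y hy => ?_) hUm
  by_contra hyU
  exact hx' ⟨(x', y), ⟨hy, hyU⟩, rfl⟩

theorem main {X Y : Type} [TopologicalSpace X] [TopologicalSpace Y] [CompactSpace Y]
    [MeasurableSpace X] [MeasurableSpace Y] [BorelSpace X] [BorelSpace Y]
    [SecondCountableTopology X] [SecondCountableTopology Y]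
    (μ : Measure X) (ν : Measure Y) [IsProbabilityMeasure μ] [IsProbabilityMeasure ν]
    [μ.IsOpenPosMeasure] [ν.OuterRegular] {A : Set X} {B : Set Y}
    (hA : ¬ IsMeagre A) (hB : ¬ InE ν B) : ¬ InE (μ.prod ν) (A ×ˢ B) := by
  rintro ⟨C, hC, hAB⟩
  have h1 : ∀ k, IsMeagre {x : X | ν (Prod.mk x ⁻¹' (C k)) ≠ 0} := by
    intro k
    have h2 : {x : X | ν (Prod.mk x ⁻¹' (C k)) ≠ 0} ⊆
        ⋃ n : ℕ, {x : X | ¬ ν (Prod.mk x ⁻¹' (C k)) < ((n : ENNReal) + 1)⁻¹} := by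
      intro x hx
      obtain ⟨n, hn⟩ := ENNReal.exists_inv_nat_lt hx
      refine mem_iUnion.2 ⟨n, ?_⟩
      intro h3
      have h4 : ((n : ENNReal) + 1)⁻¹ ≤ (n : ENNReal)⁻¹ := ENNReal.inv_le_inv.2 le_self_add
      exact lt_irrefl _ (hn.trans (h3.trans_le h4))
    refine IsMeagre.mono h2 (isMeagre_iUnion fun n => IsNowhereDense.isMeagre ?_)
    have h5 : IsClosed {x : X | ¬ ν (Prod.mk x ⁻¹' (C k)) < ((n : ENNReal) + 1)⁻¹} :=
      (isOpen_lt ν (hC k).1 _).isClosed_compl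
    rw [IsNowhereDense, h5.closure_eq]
    have h6 : μ {x : X | ¬ ν (Prod.mk x ⁻¹' (C k)) < ((n : ENNReal) + 1)⁻¹} = 0 := by
      have h7 := (Measure.measure_prod_null (hC k).1.measurableSet).1 (hC k).2
      rw [Filter.EventuallyEq, ae_iff] at h7
      refine measure_mono_null ?_ h7
      intro x hx h8
      apply hx
      change ν (Prod.mk x ⁻¹' (C k)) < _
      rw [h8]
      simp
    exact interior_eq_empty_iff_dense_compl.2 (by
      have := (isOpen_interior (s := {x : X | ¬ ν (Prod.mk x ⁻¹' (C k)) < ((n : ENNReal) + 1)⁻¹}))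
      rw [← interior_eq_empty_iff_dense_compl]
      by_contra hne
      have h9 := this.measure_pos μ (nonempty_iff_ne_empty.2 hne)
      exact absurd (measure_mono_null interior_subset h6) h9.ne')
  have h2 : IsMeagre (⋃ k, {x : X | ν (Prod.mk x ⁻¹' (C k)) ≠ 0}) := isMeagre_iUnion h1
  obtain ⟨x, hxA, hx⟩ : ∃ x ∈ A, x ∉ ⋃ k, {x : X | ν (Prod.mk x ⁻¹' (C k)) ≠ 0} := by
    by_contra hcon
    push Not at hcon
    exact hA (h2.mono hcon)
  apply hB
  refine ⟨fun k => Prod.mk x ⁻¹' (C k), fun k => ⟨(hC k).1.preimage (by fun_prop), ?_⟩, ?_⟩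
  · by_contra h3
    exact hx (mem_iUnion.2 ⟨k, h3⟩)
  · intro y hy
    obtain ⟨k, hk⟩ := mem_iUnion.1 (hAB (mk_mem_prod hxA hy))
    exact mem_iUnion.2 ⟨k, hk⟩

end Pool.Agent.K4H92.ES
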